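import Mathlib

/-!
# MP_d3b2ba: clique inequalities for the packing of near-critical events

An event is a triple `(t, n, d)`: at time `t` a match of a period with critical length `n` and of length at least `n - d` is broken.
-/

set_option autoImplicit false

namespace Pool.Agent.Helper27.PF

/-- the pair rule -/
def PairRule (E : Finset (ℤ × ℤ × ℤ)) : Prop :=
  ∀ e ∈ E, ∀ e' ∈ E, e.1 < e'.1 →
    (e.2.1 ≤ e'.2.1 → 2 * e.2.1 - e.2.2 ≤ e'.2.1 ∨ e.2.1 - e'.2.2 ≤ e'.1 - e.1) ∧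
    (e'.2.1 < e.2.1 → 2 * e'.2.1 - e.2.1 - e'.2.2 ≤ e'.1 - e.1)

/-- start of the interval of an event in the clique `(X, Z)` -/
def cs (Z : ℤ) (e : ℤ × ℤ × ℤ) : ℤ := if Z ≤ 2 * e.2.1 then e.1 + e.2.2 else e.1 + Z - 2 * e.2.1 + e.2.2

/-- end of the interval of an event in the clique `(X, Z)` -/
def ce (Z : ℤ) (e : ℤ × ℤ × ℤ) : ℤ := if Z ≤ 2 * e.2.1 then e.1 + Z - e.2.1 else e.1 + e.2.1

/-- length of the interval of an event of critical length `n` and depth `d` in the clique `(X, Z)` -/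
def cl (X Z n d : ℤ) : ℤ := if n ≤ X ∧ X < 2 * n - d then max 0 (min (Z - n - d) (3 * n - Z - d)) else 0

theorem cl_nonneg (X Z n d : ℤ) : 0 ≤ cl X Z n d := by
  unfold cl
  split_ifs
  · exact le_max_left _ _
  · exact le_refl _

theorem cs_ce_aux (X Z : ℤ) (E : Finset (ℤ × ℤ × ℤ)) (hE : PairRule E) (e e' : ℤ × ℤ × ℤ) (he : e ∈ E) (he' : e' ∈ E)
    (h1 : X < 2 * e.2.1 - e.2.2) (h2 : e'.2.1 ≤ X) (hlt : e.1 < e'.1) : ce Z e ≤ cs Z e' := by
  obtain ⟨ha, hb⟩ := hE e he e' he' hlt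
  unfold ce cs
  rcases le_or_gt e.2.1 e'.2.1 with h | h
  · rcases ha h with h' | h'
    · omega
    · split_ifs <;> omega
  · have h' := hb h
    split_ifs <;> omega

theorem clique_le (T : ℤ) (E : Finset (ℤ × ℤ × ℤ)) (hE : PairRule E)
    (hdist : ∀ e ∈ E, ∀ e' ∈ E, e.1 = e'.1 → e = e')
    (ht : ∀ e ∈ E, 0 ≤ e.1 ∧ e.1 < T ∧ 0 ≤ e.2.2 ∧ 0 ≤ e.2.1) (X Z : ℤ) (hZ : 0 ≤ Z) (hT : 0 ≤ T) :
    ∑ e ∈ E, cl X Z e.2.1 e.2.2 ≤ T + Z := by
  set F := E.filter (fun e => e.2.1 ≤ X ∧ X < 2 * e.2.1 - e.2.2) with hF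
  have h1 : ∑ e ∈ E, cl X Z e.2.1 e.2.2 = ∑ e ∈ F, ((Finset.Ico (cs Z e) (ce Z e)).card : ℤ) := by
    rw [hF, Finset.sum_filter]
    refine Finset.sum_congr rfl (fun e _ => ?_)
    unfold cl
    split_ifs with h
    · rw [Int.card_Ico]
      unfold cs ce
      split_ifs <;> omega
    · rfl
  have h2 : ∑ e ∈ F, ((Finset.Ico (cs Z e) (ce Z e)).card : ℤ) =
      ((F.biUnion (fun e => Finset.Ico (cs Z e) (ce Z e))).card : ℤ) := by
    rw [Finset.card_biUnion]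
    · rw [Nat.cast_sum]
    · intro e he e' he' hne
      have hm : e ∈ E ∧ e.2.1 ≤ X ∧ X < 2 * e.2.1 - e.2.2 := by simpa [hF] using he
      have hm' : e' ∈ E ∧ e'.2.1 ≤ X ∧ X < 2 * e'.2.1 - e'.2.2 := by simpa [hF] using he'
      rcases lt_trichotomy e.1 e'.1 with h | h | h
      · have := cs_ce_aux X Z E hE e e' hm.1 hm'.1 hm.2.2 hm'.2.1 h
        refine Finset.disjoint_left.2 (fun x hx hx' => ?_)
        rw [Finset.mem_Ico] at hx hx'
        omega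
      · exact absurd (hdist e hm.1 e' hm'.1 h) hne
      · have := cs_ce_aux X Z E hE e' e hm'.1 hm.1 hm'.2.2 hm.2.1 h
        refine Finset.disjoint_left.2 (fun x hx hx' => ?_)
        rw [Finset.mem_Ico] at hx hx'
        omega
  have h3 : F.biUnion (fun e => Finset.Ico (cs Z e) (ce Z e)) ⊆ Finset.Ico 0 (T + Z) := by
    intro x hx
    rw [Finset.mem_biUnion] at hx
    obtain ⟨e, he, hx⟩ := hx
    have hm : e ∈ E ∧ e.2.1 ≤ X ∧ X < 2 * e.2.1 - e.2.2 := by simpa [hF] using he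
    have := ht e hm.1
    rw [Finset.mem_Ico] at hx ⊢
    unfold cs ce at hx
    split_ifs at hx <;> omega
  rw [h1, h2]
  calc ((F.biUnion (fun e => Finset.Ico (cs Z e) (ce Z e))).card : ℤ) ≤ ((Finset.Ico (0 : ℤ) (T + Z)).card : ℤ) := by
        exact_mod_cast Finset.card_le_card h3
    _ = T + Z := by rw [Int.card_Ico]; omega

end Pool.Agent.Helper27.PF
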