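import Mathlib
import Pool.Agent.Helper27.PF.Clique

/-!
# MP_d3b2ba: words, matches, the pair rule and the cut lemma

Words are lists; new letters are added at the head.
-/

set_option autoImplicit false

namespace Pool.Agent.Helper27.PF

variable {α : Type}

/-- the head of `v` has `m` matches at distance `p` -/
def Mat (p m : ℕ) (v : List α) : Prop := m + p ≤ v.length ∧ ∀ j, j < m → v[j]? = v[j + p]?

/-- no factor of `v` has a period `p` and length at least `p + thr p` -/
def KF (thr : ℕ → ℕ) (v : List α) : Prop := ∀ i p, 0 < p → ¬ Mat p (thr p) (v.drop i)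

theorem Mat.mono {p m m' : ℕ} {v : List α} (h : Mat p m v) (hm : m' ≤ m) : Mat p m' v :=
  ⟨by have := h.1; omega, fun j hj => h.2 j (by omega)⟩

theorem Mat.drop {p m : ℕ} {v : List α} (h : Mat p m v) (g : ℕ) (hg : g ≤ m) : Mat p (m - g) (v.drop g) := by
  refine ⟨by rw [List.length_drop]; have := h.1; omega, fun j hj => ?_⟩
  rw [List.getElem?_drop, List.getElem?_drop]
  have := h.2 (g + j) (by omega)
  rw [this]
  congr 1
  omega

theorem mat_cons {p m : ℕ} {a : α} {v : List α} (h : Mat p (m + 1) (a :: v)) :
    Mat p m v ∧ (0 < p → v[p - 1]? = some a) := by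
  refine ⟨by simpa using h.drop 1 (by omega), fun hp => ?_⟩
  have := h.2 0 (by omega)
  rw [zero_add] at this
  obtain ⟨q, rfl⟩ : ∃ q, p = q + 1 := ⟨p - 1, by omega⟩
  rw [List.getElem?_cons_succ, List.getElem?_cons_zero] at this
  rw [show q + 1 - 1 = q by omega]
  exact this.symm

theorem KF.drop {thr : ℕ → ℕ} {v : List α} (h : KF thr v) (s : ℕ) : KF thr (v.drop s) := by
  intro i p hp hm
  rw [List.drop_drop] at hm
  exact h _ p hp hm

theorem KF.cons {thr : ℕ → ℕ} {v : List α} {a : α} (h : KF thr v) (h' : ∀ p, 0 < p → ¬ Mat p (thr p) (a :: v)) :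
    KF thr (a :: v) := by
  intro i p hp hm
  cases i with
  | zero => exact h' p hp hm
  | succ i => exact h i p hp (by simpa using hm)

/-- two matches, the first one is broken at time `s`, the second one continues: their copies agree on a short factor only -/
theorem pair_core {thr : ℕ → ℕ} {V : List α} (hV : KF thr V) {s s' p i p' i' : ℕ} (hs : s' < s)
    (h : Mat p i (V.drop s)) (hb : V[s - 1]? ≠ V[s - 1 + p]?) (h' : Mat p' i' (V.drop s')) (hg : s - s' ≤ i') :
    p ≠ p' ∧ (p < p' → min i (i' - (s - s')) < thr (p' - p)) ∧ (p' < p → min i (i' - (s - s')) < thr (p - p')) := by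
  have h1 : V[s - 1]? = V[s - 1 + p']? := by
    have := h'.2 (s - s' - 1) (by omega)
    rw [List.getElem?_drop, List.getElem?_drop] at this
    rw [show s - 1 = s' + (s - s' - 1) by omega, this]
    congr 1
    omega
  have h2 : Mat p' (i' - (s - s')) (V.drop s) := by
    have := h'.drop (s - s') hg
    rw [List.drop_drop, show s' + (s - s') = s by omega] at this
    exact this
  have hne : p ≠ p' := by
    rintro rfl
    exact hb h1
  set c := min i (i' - (s - s')) with hc
  have hcp : ∀ j, j < c → V[s + j + p]? = V[s + j + p']? := by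
    intro j hj
    have e1 := h.2 j (by omega)
    have e2 := h2.2 j (by omega)
    rw [List.getElem?_drop, List.getElem?_drop] at e1 e2
    rw [show s + j + p = s + (j + p) by ring, show s + j + p' = s + (j + p') by ring, ← e1, ← e2]
  refine ⟨hne, fun hlt => ?_, fun hlt => ?_⟩
  · by_contra hcon
    refine hV (s + p) (p' - p) (by omega) ⟨?_, fun j hj => ?_⟩
    · rw [List.length_drop]
      have := h2.1
      rw [List.length_drop] at this
      omega
    · rw [List.getElem?_drop, List.getElem?_drop]
      have := hcp j (by omega)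
      rw [show s + p + j = s + j + p by ring, this]
      congr 1
      omega
  · by_contra hcon
    refine hV (s + p') (p - p') (by omega) ⟨?_, fun j hj => ?_⟩
    · rw [List.length_drop]
      have := h.1
      rw [List.length_drop] at this
      omega
    · rw [List.getElem?_drop, List.getElem?_drop]
      have := hcp j (by omega)
      rw [show s + p' + j = s + j + p' by ring, ← this]
      congr 1
      omega

/-- the pair rule in integers -/
theorem pair_int {thr : ℕ → ℕ} (hpos : ∀ p, 0 < p → 0 < thr p)
    (hsup : ∀ p p', thr p + thr p' ≤ thr (p + p') + 1) {V : List α} (hV : KF thr V) {s s' p d p' d' R J : ℕ}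
    (hs : s' < s) (hJ : J < R) (hn : R ≤ thr p) (hn' : R ≤ thr p') (hd : d ≤ J) (hd' : d' ≤ J)
    (h : Mat p (thr p - d) (V.drop s)) (hb : V[s - 1]? ≠ V[s - 1 + p]?) (h' : Mat p' (thr p' - d') (V.drop s')) :
    (thr p ≤ thr p' → 2 * thr p ≤ thr p' + d ∨ thr p ≤ s - s' + d') ∧
    (thr p' < thr p → 2 * thr p' ≤ s - s' + thr p + d') := by
  have mono : ∀ a b, a < b → thr a ≤ thr b := by
    intro a b hab
    have h1 := hsup a (b - a)
    rw [show a + (b - a) = b by omega] at h1
    have h2 := hpos (b - a) (by omega)
    omega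
  constructor
  · intro hle
    by_contra hcon
    rw [not_or] at hcon
    obtain ⟨hc1, hc2⟩ := hcon
    obtain ⟨hne, hA, hB⟩ := pair_core hV hs h hb h' (by omega)
    rcases lt_or_gt_of_ne hne with hlt | hlt
    · have h3 := hA hlt
      have h4 := hsup p (p' - p)
      rw [show p + (p' - p) = p' by omega] at h4
      omega
    · have h3 := hB hlt
      have h4 := hsup p' (p - p')
      rw [show p' + (p - p') = p by omega] at h4
      have h5 := mono _ _ hlt
      omega
  · intro hlt'
    by_contra hcon
    obtain ⟨hne, hA, hB⟩ := pair_core hV hs h hb h' (by omega)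
    rcases lt_or_gt_of_ne hne with hlt | hlt
    · have h5 := mono _ _ hlt
      omega
    · have h3 := hB hlt
      have h4 := hsup p' (p - p')
      rw [show p' + (p - p') = p by omega] at h4
      omega

theorem kf_append {thr : ℕ → ℕ} {P : ℕ} {v : List α} (hv : KF thr v) : ∀ y : List α,
    (∀ i, i < y.length → ∀ p, 0 < p → p < P → ¬ Mat p (thr p) (y.drop i ++ v)) →
    (∀ i, i < y.length → ∀ p, P ≤ p → ¬ Mat p (thr p) (y.drop i ++ v)) → KF thr (y ++ v) := by
  intro y
  induction y with
  | nil => intro _ _; simpa using hv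
  | cons e y ih =>
    intro h1 h2
    have hy : KF thr (y ++ v) := by
      refine ih (fun i hi => ?_) (fun i hi => ?_)
      · have := h1 (i + 1) (by simpa using hi)
        simpa using this
      · have := h2 (i + 1) (by simpa using hi)
        simpa using this
    rw [List.cons_append]
    refine hy.cons (fun p hp => ?_)
    rcases lt_or_ge p P with h | h
    · have := h1 0 (by simp) p hp h
      simpa using this
    · have := h2 0 (by simp) p h
      simpa using this

theorem mat_append {p m : ℕ} {v : List α} : ∀ y : List α, Mat p m (y ++ v) → y.length ≤ m → Mat p (m - y.length) v := by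
  intro y h hy
  have := h.drop y.length hy
  rwa [List.drop_left] at this

/-- the cut lemma: a side path to a word that is dead for the small periods is cut by a large period -/
theorem cut_lemma {thr : ℕ → ℕ} {P R : ℕ} (hR : ∀ p, P ≤ p → R ≤ thr p) (hP : 0 < P) {w x : List α}
    (hleaf : ∀ u, KF thr (u ++ w) → ∃ a, KF thr (a :: (u ++ w))) (hv : KF thr (x ++ w)) (y : List α) (b : α)
    (hlen : y.length + 1 < R)
    (h1 : ∀ i, i < (y ++ [b]).length → ∀ p, 0 < p → p < P → ¬ Mat p (thr p) ((y ++ [b]).drop i ++ (x ++ w)))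
    (hdead : ∀ a, ∃ p, 0 < p ∧ p < P ∧ Mat p (thr p) (a :: (y ++ [b] ++ (x ++ w)))) :
    ∃ p d, P ≤ p ∧ 1 ≤ d ∧ d ≤ y.length + 1 ∧ Mat p (thr p - d) (x ++ w) ∧ (x ++ w)[p - 1]? = some b := by
  have hlen2 : (y ++ [b]).length = y.length + 1 := by simp
  by_cases h2 : ∀ i, i < (y ++ [b]).length → ∀ p, P ≤ p → ¬ Mat p (thr p) ((y ++ [b]).drop i ++ (x ++ w))
  · exfalso
    have hk := kf_append hv (y ++ [b]) h1 h2
    have hk' : KF thr ((y ++ [b] ++ x) ++ w) := by simpa using hk
    obtain ⟨a, ha⟩ := hleaf _ hk'
    obtain ⟨p, hp, _, hm⟩ := hdead a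
    refine ha 0 p hp ?_
    simpa using hm
  · push Not at h2
    obtain ⟨i, hi, p, hp, hm⟩ := h2
    have hR' := hR p hp
    have hi' : i ≤ y.length := by omega
    have hdrop : (y ++ [b]).drop i = y.drop i ++ [b] := by
      rw [List.drop_append_of_le_length hi']
    rw [hdrop] at hm
    have hlen3 : (y.drop i ++ [b]).length = y.length - i + 1 := by simp
    refine ⟨p, y.length - i + 1, hp, by omega, by omega, ?_, ?_⟩
    · have := mat_append (y.drop i ++ [b]) hm (by rw [hlen3]; omega)
      rwa [hlen3] at this
    · rw [List.append_assoc] at hm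
      have h3 := mat_append (y.drop i) hm (by rw [List.length_drop]; omega)
      have h4 : Mat p (thr p - (y.length - i) - 1 + 1) (b :: (x ++ w)) := by
        rw [List.length_drop] at h3
        rw [show thr p - (y.length - i) - 1 + 1 = thr p - (y.length - i) by omega]
        simpa using h3
      exact (mat_cons h4).2 (by omega)

end Pool.Agent.Helper27.PF
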