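import Mathlib

/-!
# MP_d3b2ba: words over at most four letters coded in base 4 (the head is the lowest digit), and the periodicity test
-/

set_option autoImplicit false

namespace Pool.Agent.Helper27.PF

/-- code of a word: base 4, the head is the lowest digit -/
def enc {n : ℕ} : List (Fin n) → ℕ
  | [] => 0
  | a :: w => 4 * enc w + a.val

/-- test: `m` matches at distance `p` at the head of the word with code `X` and length `len` -/
def perN (p m X len : ℕ) : Bool :=
  Nat.ble (m + p) len && Nat.beq (Nat.mod (Nat.xor X (Nat.shiftRight X (2 * p))) (Nat.pow 4 m)) 0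

theorem enc_drop {n : ℕ} (hn : n ≤ 4) (p : ℕ) : ∀ w : List (Fin n), enc w >>> (2 * p) = enc (w.drop p) := by
  induction p with
  | zero => intro w; simp
  | succ p ih =>
    intro w
    cases w with
    | nil => simp [enc]
    | cons a w =>
      rw [List.drop_succ_cons, ← ih w]
      rw [show 2 * (p + 1) = 2 + 2 * p by ring, Nat.shiftRight_add]
      congr 1
      rw [Nat.shiftRight_eq_div_pow]
      have := a.isLt
      show (4 * enc w + a.val) / 2 ^ 2 = enc w
      omega

theorem enc_take {n : ℕ} (hn : n ≤ 4) (m : ℕ) : ∀ w : List (Fin n), enc w % 4 ^ m = enc (w.take m) := by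
  induction m with
  | zero => intro w; simp [enc, Nat.mod_one]
  | succ m ih =>
    intro w
    cases w with
    | nil => simp [enc]
    | cons a w =>
      rw [List.take_succ_cons]
      show (4 * enc w + a.val) % 4 ^ (m + 1) = 4 * enc (w.take m) + a.val
      rw [← ih w, pow_succ, mul_comm (4 ^ m) 4, Nat.mod_mul]
      have := a.isLt
      have h1 : (4 * enc w + a.val) % 4 = a.val := by omega
      have h2 : (4 * enc w + a.val) / 4 = enc w := by omega
      rw [h1, h2]
      ring

theorem enc_inj {n : ℕ} (hn : n ≤ 4) : ∀ w w' : List (Fin n), w.length = w'.length → enc w = enc w' → w = w' := by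
  intro w
  induction w with
  | nil =>
    intro w' h _
    exact (List.length_eq_zero_iff.1 h.symm).symm
  | cons a w ih =>
    intro w' h he
    cases w' with
    | nil => simp at h
    | cons b w' =>
      have ha := a.isLt
      have hb := b.isLt
      have he' : 4 * enc w + a.val = 4 * enc w' + b.val := he
      have h1 : a.val = b.val := by omega
      have h2 : enc w = enc w' := by omega
      rw [Fin.ext h1, ih w' (by simpa using h) h2]

theorem enc_lt {n : ℕ} (hn : n ≤ 4) : ∀ w : List (Fin n), enc w < 4 ^ w.length := by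
  intro w
  induction w with
  | nil => simp [enc]
  | cons a w ih =>
    have ha := a.isLt
    show 4 * enc w + a.val < 4 ^ (w.length + 1)
    rw [pow_succ]
    omega

theorem xor_mod_eq_zero (X Y m : ℕ) : (X ^^^ Y) % 4 ^ m = 0 ↔ X % 4 ^ m = Y % 4 ^ m := by
  have h4 : (4 : ℕ) ^ m = 2 ^ (2 * m) := by rw [pow_mul]; norm_num
  rw [h4, Nat.xor_mod_two_pow, Nat.xor_eq_zero_iff]

theorem perN_iff {n : ℕ} (hn : n ≤ 4) (p m : ℕ) (w : List (Fin n)) :
    perN p m (enc w) w.length = true ↔ m + p ≤ w.length ∧ w.take m = (w.drop p).take m := by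
  unfold perN
  rw [Bool.and_eq_true]
  have h1 : Nat.ble (m + p) w.length = true ↔ m + p ≤ w.length := iff_of_eq Nat.ble_eq
  have h2 : Nat.beq (Nat.mod (Nat.xor (enc w) (Nat.shiftRight (enc w) (2 * p))) (Nat.pow 4 m)) 0 = true ↔
      (enc w ^^^ (enc w >>> (2 * p))) % 4 ^ m = 0 := iff_of_eq Nat.beq_eq
  rw [h1, h2, xor_mod_eq_zero, enc_drop hn, enc_take hn, enc_take hn]
  constructor
  · rintro ⟨a, b⟩
    refine ⟨a, enc_inj hn _ _ ?_ b⟩
    rw [List.length_take, List.length_take, List.length_drop]
    omega
  · rintro ⟨a, b⟩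
    exact ⟨a, by rw [b]⟩

theorem perN_get {n : ℕ} (hn : n ≤ 4) (p m : ℕ) (w : List (Fin n)) (h : perN p m (enc w) w.length = true) :
    m + p ≤ w.length ∧ ∀ j, j < m → w[j]? = w[j + p]? := by
  obtain ⟨h1, h2⟩ := (perN_iff hn p m w).1 h
  refine ⟨h1, fun j hj => ?_⟩
  have := congrArg (fun l => l[j]?) h2
  simp only [List.getElem?_take, hj, if_true, List.getElem?_drop] at this
  rw [this, add_comm]

end Pool.Agent.Helper27.PF
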