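import Pool.Agent.Helper27.PF.Enc

/-!
# MP_d3b2ba: words over three letters without factors of exponent at least 7/4 have length at most 38
-/

set_option autoImplicit false

namespace Pool.Agent.Helper27.PF

def badN (X len : ℕ) : Bool :=
  perN 1 1 X len || perN 2 2 X len || perN 3 3 X len || perN 4 3 X len || perN 6 5 X len || perN 8 6 X len ||
    perN 21 16 X len

def dead : ℕ → ℕ → ℕ → Bool
  | 0, X, len => badN X len
  | f + 1, X, len => badN X len ||
      (dead f (4 * X) (len + 1) && dead f (4 * X + 1) (len + 1) && dead f (4 * X + 2) (len + 1))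

theorem dead_39 : dead 39 0 0 = true := by decide +kernel

theorem dead_sound : ∀ (f : ℕ) (w : List (Fin 3)), dead f (enc w) w.length = true →
    ∀ x : List (Fin 3), x.length = f →
      ∃ i, badN (enc ((x ++ w).drop i)) ((x ++ w).drop i).length = true := by
  intro f
  induction f with
  | zero =>
    intro w h x hx
    have : x = [] := List.length_eq_zero_iff.1 hx
    subst this
    exact ⟨0, h⟩
  | succ f ih =>
    intro w h x hx
    by_cases hb : badN (enc w) w.length = true
    · refine ⟨x.length, ?_⟩
      rw [List.drop_left]
      exact hb
    · have h' : (badN (enc w) w.length || (dead f (4 * enc w) (w.length + 1) && dead f (4 * enc w + 1) (w.length + 1) &&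
          dead f (4 * enc w + 2) (w.length + 1))) = true := h
      rw [Bool.or_eq_true, Bool.and_eq_true, Bool.and_eq_true] at h'
      rcases h' with h' | ⟨⟨h0, h1⟩, h2⟩
      · exact absurd h' hb
      · rcases List.eq_nil_or_concat x with hx0 | ⟨y, a, hxa⟩
        · rw [hx0] at hx
          simp at hx
        · subst hxa
          have hy : y.length = f := by simpa using hx
          have key : dead f (enc (a :: w)) (a :: w).length = true := by
            have e : enc (a :: w) = 4 * enc w + a.val := rfl
            rw [e, List.length_cons]
            fin_cases a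
            · exact h0
            · exact h1
            · exact h2
          obtain ⟨i, hi⟩ := ih (a :: w) key y hy
          refine ⟨i, ?_⟩
          have : y ++ [a] ++ w = y ++ (a :: w) := by simp
          simpa [this] using hi

/-- every ternary word of length at least `39` has a factor of exponent at least `7/4` -/
theorem fin74 (w : List (Fin 3)) (hw : 39 ≤ w.length) :
    ∃ i p m : ℕ, 0 < p ∧ 7 * p ≤ 4 * (m + p) ∧ m + p ≤ (w.drop i).length ∧
      (w.drop i).take m = ((w.drop i).drop p).take m := by
  obtain ⟨i, hi⟩ := dead_sound 39 [] dead_39 (w.take 39) (by rw [List.length_take]; omega)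
  rw [List.append_nil] at hi
  set u := (w.take 39).drop i with hu
  have key : ∃ p m : ℕ, 0 < p ∧ 7 * p ≤ 4 * (m + p) ∧ perN p m (enc u) u.length = true := by
    unfold badN at hi
    simp only [Bool.or_eq_true] at hi
    rcases hi with (((((h | h) | h) | h) | h) | h) | h
    · exact ⟨1, 1, by norm_num, by norm_num, h⟩
    · exact ⟨2, 2, by norm_num, by norm_num, h⟩
    · exact ⟨3, 3, by norm_num, by norm_num, h⟩
    · exact ⟨4, 3, by norm_num, by norm_num, h⟩
    · exact ⟨6, 5, by norm_num, by norm_num, h⟩
    · exact ⟨8, 6, by norm_num, by norm_num, h⟩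
    · exact ⟨21, 16, by norm_num, by norm_num, h⟩
  obtain ⟨p, m, hp, h7, hper⟩ := key
  obtain ⟨h1, h2⟩ := (perN_iff (by norm_num) p m u).1 hper
  have hlen : u.length ≤ (w.drop i).length := by
    rw [hu, List.length_drop, List.length_drop, List.length_take]
    omega
  have hpre : u = (w.drop i).take u.length := by
    have : u <+: w.drop i := by
      rw [hu]
      exact (List.take_prefix 39 w).drop i
    exact (List.prefix_iff_eq_take.1 this)
  refine ⟨i, p, m, hp, h7, le_trans h1 hlen, ?_⟩
  have e1 : (w.drop i).take m = u.take m := by
    rw [hpre, List.take_take, min_eq_left (by omega)]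
  have e2 : ((w.drop i).drop p).take m = (u.drop p).take m := by
    rw [hpre, List.drop_take, List.take_take, min_eq_left (by omega)]
  rw [e1, e2, h2]

end Pool.Agent.Helper27.PF
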